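import Mathlib

/-! Topological and analytic lemmas for the curve where the derivative of a rational function is
real. -/

set_option autoImplicit false

open Polynomial Filter Topology

namespace Pool.Agent.R861.BC

/-- A bounded component of a closed set of the plane is contained in an arbitrarily small compact
part of it whose complement (in the closed set) is closed. -/
theorem exists_compact_part {I : Set ℂ} (hI : IsClosed I) {z : ℂ} (hz : z ∈ I)
    (hb : Bornology.IsBounded (connectedComponentIn I z)) {U : Set ℂ} (hU : IsOpen U)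
    (hKU : connectedComponentIn I z ⊆ U) :
    ∃ S : Set ℂ, S ⊆ I ∧ connectedComponentIn I z ⊆ S ∧ IsCompact S ∧ IsClosed (I \ S) ∧
      S ⊆ U := by
  obtain ⟨ρ, hρ⟩ := hb.subset_ball (0 : ℂ)
  set J : Set ℂ := I ∩ Metric.closedBall 0 (ρ + 1) with hJ
  have hJc : IsCompact J := (isCompact_closedBall (0 : ℂ) (ρ + 1)).inter_left hI
  have hzK : z ∈ connectedComponentIn I z := mem_connectedComponentIn hz
  have hzb : z ∈ Metric.ball (0 : ℂ) ρ := hρ hzK
  have hzJ : z ∈ J := ⟨hz, Metric.ball_subset_closedBall (Metric.ball_subset_ball (by linarith) hzb)⟩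
  have : CompactSpace J := isCompact_iff_compactSpace.1 hJc
  set x : J := ⟨z, hzJ⟩ with hx
  -- the component of `x` in `J` lies in the small ball
  have h1 : (Subtype.val '' connectedComponent x) ⊆ connectedComponentIn I z := by
    apply IsPreconnected.subset_connectedComponentIn
    · exact isPreconnected_connectedComponent.image _ continuous_subtype_val.continuousOn
    · exact ⟨x, mem_connectedComponent, rfl⟩
    · rintro _ ⟨y, _, rfl⟩
      exact y.2.1
  have h2 : connectedComponent x ⊆ {y : J | (y : ℂ) ∈ Metric.ball (0 : ℂ) ρ ∩ U} := by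
    intro y hy
    exact ⟨hρ (h1 ⟨y, hy, rfl⟩), hKU (h1 ⟨y, hy, rfl⟩)⟩
  have hopen : IsOpen {y : J | (y : ℂ) ∈ Metric.ball (0 : ℂ) ρ ∩ U} :=
    (Metric.isOpen_ball.inter hU).preimage continuous_subtype_val
  -- a clopen neighbourhood
  obtain ⟨Z, hZc, hxZ, hZ⟩ : ∃ Z : Set J, IsClopen Z ∧ x ∈ Z ∧
      Z ⊆ {y : J | (y : ℂ) ∈ Metric.ball (0 : ℂ) ρ ∩ U} := by
    rw [connectedComponent_eq_iInter_isClopen] at h2
    have hdir : Directed (· ⊇ ·) (fun s : { s : Set J // IsClopen s ∧ x ∈ s } => (s : Set J)) := by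
      intro a b
      exact ⟨⟨a ∩ b, a.2.1.inter b.2.1, a.2.2, b.2.2⟩, Set.inter_subset_left, Set.inter_subset_right⟩
    have : Nonempty { s : Set J // IsClopen s ∧ x ∈ s } :=
      ⟨⟨Set.univ, isClopen_univ, Set.mem_univ _⟩⟩
    obtain ⟨s, hs⟩ := exists_subset_nhds_of_isCompact' hdir
      (fun s => s.2.1.isClosed.isCompact) (fun s => s.2.1.isClosed)
      (fun y hy => hopen.mem_nhds (h2 hy))
    exact ⟨s, s.2.1, s.2.2, hs⟩
  refine ⟨Subtype.val '' Z, ?_, ?_, ?_, ?_, ?_⟩
  · rintro _ ⟨y, _, rfl⟩
    exact y.2.1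
  · -- the component is contained in Z
    have hKJ : connectedComponentIn I z ⊆ J := fun y hy =>
      ⟨connectedComponentIn_subset _ _ hy,
        Metric.ball_subset_closedBall (Metric.ball_subset_ball (by linarith) (hρ hy))⟩
    have hpre : IsPreconnected (Subtype.val ⁻¹' connectedComponentIn I z : Set J) := by
      apply (Topology.IsInducing.subtypeVal.isPreconnected_image).1
      rw [Subtype.image_preimage_coe, Set.inter_eq_right.2 hKJ]
      exact isPreconnected_connectedComponentIn
    have h3 := hpre.subset_isClopen hZc ⟨x, hzK, hxZ⟩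
    intro y hy
    exact ⟨⟨y, hKJ hy⟩, h3 hy, rfl⟩
  · exact hZc.isClosed.isCompact.image continuous_subtype_val
  · have h4 : I \ (Subtype.val '' Z) = (Subtype.val '' Zᶜ) ∪ (I \ Metric.ball 0 ρ) := by
      ext y
      constructor
      · rintro ⟨hy, hyZ⟩
        by_cases hyb : y ∈ Metric.ball (0 : ℂ) ρ
        · left
          have hyJ : y ∈ J := ⟨hy,
            Metric.ball_subset_closedBall (Metric.ball_subset_ball (by linarith) hyb)⟩
          refine ⟨⟨y, hyJ⟩, ?_, rfl⟩
          intro h
          exact hyZ ⟨_, h, rfl⟩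
        · right
          exact ⟨hy, hyb⟩
      · rintro (⟨w, hw, rfl⟩ | ⟨hy, hyb⟩)
        · refine ⟨w.2.1, ?_⟩
          rintro ⟨v, hv, hvw⟩
          have : v = w := Subtype.ext hvw
          exact hw (this ▸ hv)
        · refine ⟨hy, ?_⟩
          rintro ⟨v, hv, hvw⟩
          exact hyb (hvw ▸ (hZ hv).1)
    rw [h4]
    apply IsClosed.union
    · exact (hZc.compl.isClosed.isCompact.image continuous_subtype_val).isClosed
    · exact hI.sdiff Metric.isOpen_ball
  · rintro _ ⟨y, hy, rfl⟩
    exact (hZ hy).2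

end Pool.Agent.R861.BC
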