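import Mathlib

/-! The derivative of a rational function is an open map. -/

set_option autoImplicit false

open Polynomial Filter Topology

namespace Pool.Agent.R861.BC

/-- the numerator of the derivative of `N / Q` -/
noncomputable def G (N Q : ℂ[X]) : ℂ[X] := derivative N * Q - N * derivative Q

/-- the derivative of `N / Q` -/
noncomputable def f (N Q : ℂ[X]) (z : ℂ) : ℂ := (G N Q).eval z / (Q.eval z) ^ 2

theorem deriv_eq (N Q : ℂ[X]) {z : ℂ} (hz : Q.eval z ≠ 0) :
    deriv (fun w => N.eval w / Q.eval w) z = f N Q z := by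
  have h := (N.hasDerivAt z).div (Q.hasDerivAt z) hz
  have h2 := h.deriv
  rw [show (fun w => N.eval w / Q.eval w) = (fun w => N.eval w) / (fun w => Q.eval w) from rfl, h2]
  unfold f G
  rw [eval_sub, eval_mul, eval_mul]

theorem not_const {N Q : ℂ[X]} (hco : IsCoprime N Q) {p : ℂ} (hp : Q.eval p = 0) (hQ : Q ≠ 0)
    (c : ℂ) : G N Q ≠ C c * Q ^ 2 := by
  intro h
  have h1 : Q ∣ N * derivative Q := by
    have : N * derivative Q = Q * (derivative N - C c * Q) := by
      unfold G at h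
      linear_combination -h
    exact Dvd.intro _ this.symm
  have h2 : Q ∣ derivative Q := hco.symm.dvd_of_dvd_mul_left h1
  have h3 : 0 < Q.natDegree := by
    rcases Nat.eq_zero_or_pos Q.natDegree with h0 | h0
    · rw [natDegree_eq_zero] at h0
      obtain ⟨a, rfl⟩ := h0
      rw [eval_C] at hp
      exact absurd (by rw [hp, map_zero]) hQ
    · exact h0
  have h4 : derivative Q = 0 := by
    by_contra hne
    have h5 := natDegree_le_of_dvd h2 hne
    have h6 := natDegree_derivative_lt (p := Q) (by omega)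
    omega
  have h7 := derivative_eq_zero.1 h4
  omega

theorem analyticAt_f (N Q : ℂ[X]) {z : ℂ} (hz : Q.eval z ≠ 0) : AnalyticAt ℂ (f N Q) z := by
  unfold f
  apply AnalyticAt.div
  · exact (AnalyticOnNhd.eval_polynomial (G N Q)) z (Set.mem_univ _)
  · exact ((AnalyticOnNhd.eval_polynomial Q) z (Set.mem_univ _)).pow 2
  · exact pow_ne_zero 2 hz

theorem open_at {N Q : ℂ[X]} (hco : IsCoprime N Q) {p : ℂ} (hp : Q.eval p = 0) (hQ : Q ≠ 0)
    {z : ℂ} (hz : Q.eval z ≠ 0) : 𝓝 (f N Q z) ≤ Filter.map (f N Q) (𝓝 z) := by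
  rcases (analyticAt_f N Q hz).eventually_constant_or_nhds_le_map_nhds with h | h
  · exfalso
    apply not_const hco hp hQ (f N Q z)
    have h1 : ∀ᶠ w in 𝓝 z, (G N Q).eval w = (C (f N Q z) * Q ^ 2).eval w := by
      have h2 : ∀ᶠ w in 𝓝 z, Q.eval w ≠ 0 := Q.continuous.continuousAt.eventually_ne hz
      filter_upwards [h, h2] with w hw hw2
      rw [eval_mul, eval_C, eval_pow, ← hw]
      unfold f
      field_simp
    apply eq_of_infinite_eval_eq
    exact infinite_of_mem_nhds z h1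
  · exact h

/-- The map takes values with a slightly larger real part. -/
theorem exists_larger {N Q : ℂ[X]} (hco : IsCoprime N Q) {p : ℂ} (hp : Q.eval p = 0) (hQ : Q ≠ 0)
    {z : ℂ} (hz : Q.eval z ≠ 0) {V : Set ℂ} (hV : V ∈ 𝓝 z) :
    ∃ w ∈ V, ∃ δ : ℝ, 0 < δ ∧ f N Q w = f N Q z + δ := by
  have h1 : f N Q '' V ∈ 𝓝 (f N Q z) := open_at hco hp hQ hz (image_mem_map hV)
  have h2 : Tendsto (fun δ : ℝ => f N Q z + δ) (𝓝[>] 0) (𝓝 (f N Q z)) := by
    have : Tendsto (fun δ : ℝ => f N Q z + δ) (𝓝 0) (𝓝 (f N Q z + ((0 : ℝ) : ℂ))) := by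
      apply Continuous.tendsto
      fun_prop
    rw [Complex.ofReal_zero, add_zero] at this
    exact this.mono_left nhdsWithin_le_nhds
  obtain ⟨δ, hδ, hδ0⟩ := ((h2.eventually h1).and self_mem_nhdsWithin).exists
  obtain ⟨w, hw, hwe⟩ := hδ
  exact ⟨w, hw, δ, hδ0, hwe⟩

/-- the locus where `f` is real, together with the zeros of `Q` -/
def locus (N Q : ℂ[X]) : Set ℂ := {z | Q.eval z = 0 ∨ (f N Q z).im = 0}

theorem mem_locus_iff (N Q : ℂ[X]) (z : ℂ) :
    z ∈ locus N Q ↔ ((G N Q).eval z * (starRingEnd ℂ (Q.eval z)) ^ 2).im = 0 := by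
  unfold locus
  rw [Set.mem_ofPred_eq]
  by_cases hz : Q.eval z = 0
  · simp [hz]
  · have h1 : (G N Q).eval z * (starRingEnd ℂ (Q.eval z)) ^ 2
        = f N Q z * ((Complex.normSq (Q.eval z) ^ 2 : ℝ) : ℂ) := by
      unfold f
      push_cast
      rw [← Complex.mul_conj]
      field_simp
    rw [h1, Complex.im_mul_ofReal]
    simp [hz]

theorem isClosed_locus (N Q : ℂ[X]) : IsClosed (locus N Q) := by
  have : locus N Q = {z | ((G N Q).eval z * (starRingEnd ℂ (Q.eval z)) ^ 2).im = 0} := by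
    ext z
    exact mem_locus_iff N Q z
  rw [this]
  apply isClosed_eq
  · apply Complex.continuous_im.comp
    exact (G N Q).continuous.mul ((Complex.continuous_conj.comp Q.continuous).pow 2)
  · exact continuous_const

/-- The real part of `f` has no maximum at a regular point of an open part of the locus. -/
theorem no_max {N Q : ℂ[X]} (hco : IsCoprime N Q) {p : ℂ} (hp : Q.eval p = 0)
    (hQ : Q ≠ 0) {T : Set ℂ} (hT : T ⊆ locus N Q) (hcl : IsClosed (locus N Q \ T)) {z : ℂ}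
    (hz : z ∈ T) (hzQ : Q.eval z ≠ 0) : ∃ w ∈ T, (f N Q z).re < (f N Q w).re := by
  have hV : (locus N Q \ T)ᶜ ∩ {w | Q.eval w ≠ 0} ∈ 𝓝 z := by
    apply IsOpen.mem_nhds
    · exact hcl.isOpen_compl.inter (isOpen_ne_fun Q.continuous continuous_const)
    · exact ⟨fun h => h.2 hz, hzQ⟩
  obtain ⟨w, hw, δ, hδ, hwe⟩ := exists_larger hco hp hQ hzQ hV
  have hwl : w ∈ locus N Q := by
    right
    rw [hwe, Complex.add_im, Complex.ofReal_im, add_zero]
    rcases hT hz with h | h
    · exact absurd h hzQ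
    · exact h
  have hwS : w ∈ T := by
    by_contra h
    exact hw.1 ⟨hwl, h⟩
  refine ⟨w, hwS, ?_⟩
  rw [hwe, Complex.add_re, Complex.ofReal_re]
  linarith

theorem continuousOn_re {N Q : ℂ[X]} {T : Set ℂ} (hT : ∀ z ∈ T, Q.eval z ≠ 0) :
    ContinuousOn (fun z => (f N Q z).re) T := by
  intro z hz
  exact (Complex.continuous_re.continuousAt.comp
    (analyticAt_f N Q (hT z hz)).continuousAt).continuousWithinAt

/-- A compact part of the locus whose complement is closed contains a zero of `Q`. -/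
theorem compact_part_has_pole {N Q : ℂ[X]} (hco : IsCoprime N Q) {p : ℂ} (hp : Q.eval p = 0)
    (hQ : Q ≠ 0) {S : Set ℂ} (hS : S ⊆ locus N Q) (hSc : IsCompact S)
    (hcl : IsClosed (locus N Q \ S)) (hne : S.Nonempty) : ∃ q ∈ S, Q.eval q = 0 := by
  by_contra hcon
  push Not at hcon
  obtain ⟨z, hz, hmax⟩ := hSc.exists_isMaxOn hne (continuousOn_re (N := N) hcon)
  obtain ⟨w, hw, hlt⟩ := no_max hco hp hQ hS hcl hz (hcon z hz)
  exact absurd (hmax hw) (not_le.2 hlt)

section Infinity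

/-- the extension of `w ↦ f (w⁻¹)` to `0` -/
noncomputable def hfun (N Q : ℂ[X]) (w : ℂ) : ℂ :=
  w ^ (2 * Q.natDegree - (G N Q).natDegree) * (G N Q).reverse.eval w / (Q.reverse.eval w) ^ 2

theorem G_natDegree {N Q : ℂ[X]} (hdeg : N.natDegree ≤ Q.natDegree) (hq : 0 < Q.natDegree) :
    (G N Q).natDegree < 2 * Q.natDegree := by
  have h1 : (derivative N * Q).natDegree < 2 * Q.natDegree := by
    rcases Nat.eq_zero_or_pos N.natDegree with h0 | h0
    · rw [natDegree_eq_zero] at h0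
      obtain ⟨a, rfl⟩ := h0
      simp
      omega
    · have h2 := natDegree_derivative_lt (p := N) (by omega)
      have h3 := natDegree_mul_le (p := derivative N) (q := Q)
      omega
  have h2 : (N * derivative Q).natDegree < 2 * Q.natDegree := by
    have h2 := natDegree_derivative_lt (p := Q) (by omega)
    have h3 := natDegree_mul_le (p := N) (q := derivative Q)
    omega
  exact lt_of_le_of_lt (natDegree_sub_le _ _) (max_lt h1 h2)

theorem reverse_eval (P : ℂ[X]) {w : ℂ} (hw : w ≠ 0) :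
    P.eval (w⁻¹) = P.reverse.eval w * (w⁻¹) ^ P.natDegree := by
  let _ : Invertible (w⁻¹) := invertibleOfNonzero (inv_ne_zero hw)
  have h := eval₂_reverse_mul_pow (RingHom.id ℂ) (w⁻¹) P
  rw [invOf_eq_inv, inv_inv] at h
  exact h.symm

theorem hfun_eq {N Q : ℂ[X]} (hg : (G N Q).natDegree < 2 * Q.natDegree) {w : ℂ} (hw : w ≠ 0) :
    f N Q (w⁻¹) = hfun N Q w := by
  unfold f hfun
  rw [reverse_eval _ hw, reverse_eval Q hw]
  have h1 : w ^ (2 * Q.natDegree) = w ^ (2 * Q.natDegree - (G N Q).natDegree)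
      * w ^ (G N Q).natDegree := by
    rw [← pow_add]
    congr 1
    omega
  rw [mul_pow, ← pow_mul, mul_comm Q.natDegree 2, inv_pow, inv_pow, h1]
  field_simp

theorem hfun_zero {N Q : ℂ[X]} (hg : (G N Q).natDegree < 2 * Q.natDegree) : hfun N Q 0 = 0 := by
  unfold hfun
  rw [zero_pow (by omega), zero_mul, zero_div]

theorem hfun_analytic {N Q : ℂ[X]} (hQ : Q ≠ 0) : AnalyticAt ℂ (hfun N Q) 0 := by
  unfold hfun
  apply AnalyticAt.div
  · exact (analyticAt_id.pow _).mul
      ((AnalyticOnNhd.eval_polynomial (G N Q).reverse) 0 (Set.mem_univ _))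
  · exact ((AnalyticOnNhd.eval_polynomial Q.reverse) 0 (Set.mem_univ _)).pow 2
  · apply pow_ne_zero
    rw [← coeff_zero_eq_eval_zero, coeff_zero_reverse]
    exact leadingCoeff_ne_zero.2 hQ

theorem far_point {N Q : ℂ[X]} (hco : IsCoprime N Q) {p : ℂ} (hp : Q.eval p = 0) (hQ : Q ≠ 0)
    (hg : (G N Q).natDegree < 2 * Q.natDegree) (ρ : ℝ) :
    ∃ z : ℂ, ρ < ‖z‖ ∧ z ∈ locus N Q ∧ 0 < (f N Q z).re := by
  have hopen : 𝓝 (hfun N Q 0) ≤ Filter.map (hfun N Q) (𝓝 0) := by
    rcases (hfun_analytic (N := N) hQ).eventually_constant_or_nhds_le_map_nhds with h | h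
    · exfalso
      apply not_const hco hp hQ 0
      rw [hfun_zero hg] at h
      have h1 : ∀ᶠ w in 𝓝[≠] (0 : ℂ), (G N Q).reverse.eval w = (0 : ℂ[X]).eval w := by
        have h2 : ∀ᶠ w in 𝓝 (0 : ℂ), Q.reverse.eval w ≠ 0 := by
          apply Q.reverse.continuous.continuousAt.eventually_ne
          rw [← coeff_zero_eq_eval_zero, coeff_zero_reverse]
          exact leadingCoeff_ne_zero.2 hQ
        filter_upwards [nhdsWithin_le_nhds h, nhdsWithin_le_nhds h2, self_mem_nhdsWithin]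
          with w hw hw2 hw3
        unfold hfun at hw
        rw [div_eq_zero_iff, mul_eq_zero] at hw
        rcases hw with (hw | hw) | hw
        · exact absurd hw (pow_ne_zero _ hw3)
        · rw [hw, eval_zero]
        · exact absurd hw (pow_ne_zero _ hw2)
      have h3 : (G N Q).reverse = 0 := by
        apply eq_of_infinite_eval_eq
        intro hfin
        exact infinite_of_mem_nhds (0 : ℂ) (insert_mem_nhds_iff.2 h1) (hfin.insert 0)
      rw [C_0, zero_mul]
      rwa [reverse_eq_zero] at h3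
    · exact h
  set r : ℝ := 1 / (|ρ| + 1) with hr
  have hr0 : 0 < r := by positivity
  have hV : Metric.ball (0 : ℂ) r ∈ 𝓝 (0 : ℂ) := Metric.ball_mem_nhds _ hr0
  have h1 : hfun N Q '' Metric.ball (0 : ℂ) r ∈ 𝓝 (0 : ℂ) := by
    have := hopen (image_mem_map hV)
    rwa [hfun_zero hg] at this
  have h2 : Tendsto (fun δ : ℝ => (δ : ℂ)) (𝓝[>] 0) (𝓝 (0 : ℂ)) := by
    have : Tendsto (fun δ : ℝ => (δ : ℂ)) (𝓝 0) (𝓝 ((0 : ℝ) : ℂ)) :=
      Complex.continuous_ofReal.tendsto _
    rw [Complex.ofReal_zero] at this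
    exact this.mono_left nhdsWithin_le_nhds
  obtain ⟨δ, hδ, hδ0⟩ := ((h2.eventually h1).and self_mem_nhdsWithin).exists
  obtain ⟨w, hw, hwe⟩ := hδ
  have hδ0' : (0 : ℝ) < δ := hδ0
  have hw0 : w ≠ 0 := by
    rintro rfl
    rw [hfun_zero hg] at hwe
    have : (δ : ℂ) ≠ 0 := by exact_mod_cast hδ0'.ne'
    exact this hwe.symm
  have hfw : f N Q (w⁻¹) = δ := by rw [hfun_eq hg hw0, hwe]
  refine ⟨w⁻¹, ?_, ?_, ?_⟩
  · rw [norm_inv]
    rw [mem_ball_zero_iff] at hw
    have h3 : 0 < ‖w‖ := norm_pos_iff.2 hw0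
    have h4 : |ρ| + 1 < ‖w‖⁻¹ := by
      rw [lt_inv_comm₀ (by positivity) h3]
      rwa [hr, one_div] at hw
    have h5 := le_abs_self ρ
    linarith
  · right
    rw [hfw, Complex.ofReal_im]
  · rw [hfw, Complex.ofReal_re]
    exact hδ0'

theorem tendsto_f {N Q : ℂ[X]} (hQ : Q ≠ 0) (hg : (G N Q).natDegree < 2 * Q.natDegree) :
    Tendsto (f N Q) (cocompact ℂ) (𝓝 0) := by
  rw [← Metric.cobounded_eq_cocompact]
  have h1 : Tendsto (fun z : ℂ => hfun N Q (z⁻¹)) (Bornology.cobounded ℂ) (𝓝 (hfun N Q 0)) :=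
    (hfun_analytic (N := N) hQ).continuousAt.tendsto.comp tendsto_inv₀_cobounded
  rw [hfun_zero hg] at h1
  apply h1.congr'
  filter_upwards [Bornology.eventually_ne_cobounded (0 : ℂ)] with z hz
  rw [← hfun_eq hg (inv_ne_zero hz), inv_inv]

/-- If `N / Q` is finite at infinity, a compact part of the locus whose complement is closed
does not contain all zeros of `Q`. -/
theorem compact_part_misses_pole {N Q : ℂ[X]} (hco : IsCoprime N Q) {p : ℂ} (hp : Q.eval p = 0)
    (hQ : Q ≠ 0) (hdeg : N.natDegree ≤ Q.natDegree) {S : Set ℂ} (hS : S ⊆ locus N Q)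
    (hSc : IsCompact S) (hcl : IsClosed (locus N Q \ S)) : ∃ q, Q.eval q = 0 ∧ q ∉ S := by
  by_contra hcon
  push Not at hcon
  have hq : 0 < Q.natDegree := by
    rcases Nat.eq_zero_or_pos Q.natDegree with h0 | h0
    · rw [natDegree_eq_zero] at h0
      obtain ⟨a, rfl⟩ := h0
      rw [eval_C] at hp
      exact absurd (by rw [hp, map_zero]) hQ
    · exact h0
  have hg := G_natDegree hdeg hq
  set T := locus N Q \ S with hT
  have hTl : T ⊆ locus N Q := Set.sdiff_subset
  have hTS : locus N Q \ T = S := by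
    rw [hT, Set.sdiff_sdiff_cancel_left hS]
  have hTQ : ∀ z ∈ T, Q.eval z ≠ 0 := fun z hz h => hz.2 (hcon z h)
  obtain ⟨ρ, hρ⟩ := hSc.isBounded.subset_closedBall (0 : ℂ)
  obtain ⟨z₁, hz₁, hz₁l, hz₁p⟩ := far_point hco hp hQ hg ρ
  have hz₁T : z₁ ∈ T := by
    refine ⟨hz₁l, fun h => ?_⟩
    have := hρ h
    rw [mem_closedBall_zero_iff] at this
    linarith
  have hev : ∀ᶠ z in cocompact ℂ ⊓ 𝓟 T, (f N Q z).re ≤ (f N Q z₁).re := by
    have h1 : Tendsto (fun z => (f N Q z).re) (cocompact ℂ) (𝓝 0) := by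
      have := (Complex.continuous_re.tendsto 0).comp (tendsto_f hQ hg)
      rw [Complex.zero_re] at this
      exact this
    have h2 := h1.eventually (gt_mem_nhds hz₁p)
    exact (h2.mono fun z hz => hz.le).filter_mono inf_le_left
  obtain ⟨z, hz, hmax⟩ := (continuousOn_re (N := N) hTQ).exists_isMaxOn' hcl hz₁T hev
  obtain ⟨w, hw, hlt⟩ := no_max hco hp hQ hTl (by rw [hTS]; exact hSc.isClosed) hz (hTQ z hz)
  exact absurd (hmax hw) (not_le.2 hlt)

end Infinity

end Pool.Agent.R861.BC
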