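import Mathlib
import Pool.Agent.R861.BC1
import Pool.Agent.R861.BC2

/-! Upper bounds for the number of bounded components. -/

set_option autoImplicit false

open Polynomial Filter Topology

namespace Pool.Agent.R861.BC

/-- the bounded components of a set -/
def bddComps (I : Set ℂ) : Set (Set ℂ) :=
  {K | Bornology.IsBounded K ∧ ∃ z ∈ I, K = connectedComponentIn I z}

theorem component_has_pole {N Q : ℂ[X]} (hco : IsCoprime N Q) {p : ℂ} (hp : Q.eval p = 0)
    (hQ : Q ≠ 0) {K : Set ℂ} (hK : K ∈ bddComps (locus N Q)) : ∃ q ∈ K, Q.eval q = 0 := by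
  obtain ⟨hb, z, hz, rfl⟩ := hK
  by_contra hcon
  push Not at hcon
  have hU : IsOpen {w : ℂ | Q.eval w ≠ 0} := isOpen_ne_fun Q.continuous continuous_const
  obtain ⟨S, hS, hKS, hSc, hScl, hSU⟩ := exists_compact_part (isClosed_locus N Q) hz hb hU hcon
  obtain ⟨q, hq, hq0⟩ := compact_part_has_pole hco hp hQ hS hSc hScl
    ⟨z, hKS (mem_connectedComponentIn hz)⟩
  exact hSU hq hq0

theorem exists_injection {N Q : ℂ[X]} (hco : IsCoprime N Q) {p : ℂ} (hp : Q.eval p = 0)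
    (hQ : Q ≠ 0) : ∃ g : Set ℂ → ℂ, (∀ K ∈ bddComps (locus N Q), g K ∈ K ∧ Q.eval (g K) = 0) ∧
      Set.InjOn g (bddComps (locus N Q)) := by
  classical
  have h1 : ∀ K : Set ℂ, ∃ q : ℂ, K ∈ bddComps (locus N Q) → q ∈ K ∧ Q.eval q = 0 := by
    intro K
    by_cases hK : K ∈ bddComps (locus N Q)
    · obtain ⟨q, h1, h2⟩ := component_has_pole hco hp hQ hK
      exact ⟨q, fun _ => ⟨h1, h2⟩⟩
    · exact ⟨0, fun h => absurd h hK⟩
  choose g hg using h1
  refine ⟨g, fun K hK => hg K hK, ?_⟩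
  intro K hK L hL hKL
  obtain ⟨hKm, _⟩ := hg K hK
  obtain ⟨hLm, _⟩ := hg L hL
  obtain ⟨_, z, _, rfl⟩ := hK
  obtain ⟨_, w, _, rfl⟩ := hL
  rw [connectedComponentIn_eq hKm, connectedComponentIn_eq hLm, hKL]

theorem upper {N Q : ℂ[X]} (hco : IsCoprime N Q) {p : ℂ} (hp : Q.eval p = 0)
    (hQ : Q ≠ 0) : (bddComps (locus N Q)).encard ≤ {q : ℂ | Q.eval q = 0}.encard := by
  obtain ⟨g, hg, hinj⟩ := exists_injection hco hp hQ
  exact Set.encard_le_encard_of_injOn (fun K hK => (hg K hK).2) hinj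

theorem upper' {N Q : ℂ[X]} (hco : IsCoprime N Q) {p : ℂ} (hp : Q.eval p = 0)
    (hQ : Q ≠ 0) (hdeg : N.natDegree ≤ Q.natDegree) :
    (bddComps (locus N Q)).encard + 1 ≤ {q : ℂ | Q.eval q = 0}.encard := by
  classical
  obtain ⟨g, hg, hinj⟩ := exists_injection hco hp hQ
  -- some pole is not in a bounded component
  obtain ⟨q, hq, hqK⟩ : ∃ q, Q.eval q = 0 ∧ ∀ K ∈ bddComps (locus N Q), q ∉ K := by
    by_contra hcon
    push Not at hcon
    have h1 : ∀ q : {q : ℂ // Q.eval q = 0}, ∃ S : Set ℂ, S ⊆ locus N Q ∧ (q : ℂ) ∈ S ∧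
        IsCompact S ∧ IsClosed (locus N Q \ S) := by
      rintro ⟨q, hq⟩
      obtain ⟨K, hK, hqK⟩ := hcon q hq
      obtain ⟨hb, z, hz, rfl⟩ := hK
      obtain ⟨S, hS, hKS, hSc, hScl, -⟩ := exists_compact_part (isClosed_locus N Q) hz hb
        isOpen_univ (Set.subset_univ _)
      exact ⟨S, hS, hKS hqK, hSc, hScl⟩
    choose S hS1 hS2 hS3 hS4 using h1
    have hfin : Finite {q : ℂ // Q.eval q = 0} := by
      have : {q : ℂ | Q.eval q = 0} = {q : ℂ | IsRoot Q q} := rfl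
      have h2 : {q : ℂ | Q.eval q = 0}.Finite := by
        rw [this]
        exact finite_setOfPred_isRoot hQ
      exact h2
    have hne : Nonempty {q : ℂ // Q.eval q = 0} := ⟨⟨p, hp⟩⟩
    obtain ⟨q, hq, hqS⟩ := compact_part_misses_pole hco hp hQ hdeg
      (S := ⋃ q, S q) (Set.iUnion_subset hS1) (isCompact_iUnion hS3) (by
        rw [Set.sdiff_iUnion]
        exact isClosed_iInter hS4)
    exact hqS (Set.mem_iUnion.2 ⟨⟨q, hq⟩, hS2 ⟨q, hq⟩⟩)
  have h1 : (insert q (g '' bddComps (locus N Q))).encard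
      = (bddComps (locus N Q)).encard + 1 := by
    rw [Set.encard_insert_of_notMem, hinj.encard_image]
    rintro ⟨K, hK, hgK⟩
    exact hqK K hK (hgK ▸ (hg K hK).1)
  rw [← h1]
  apply Set.encard_le_encard
  rw [Set.insert_subset_iff]
  refine ⟨hq, ?_⟩
  rintro _ ⟨K, hK, rfl⟩
  exact (hg K hK).2

end Pool.Agent.R861.BC
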