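import Mathlib
import Pool.Agent.R861.BC3

/-! Construction of functions with many bounded components. -/

set_option autoImplicit false

open Polynomial Filter Topology

namespace Pool.Agent.R861.BC

theorem f_add {U V Q₁ : ℂ[X]} (ε : ℂ) {z : ℂ} (hV : V.eval z ≠ 0) (hQ : Q₁.eval z ≠ 0) :
    f (U * Q₁ + C ε * V) (V * Q₁) z = f U V z + ε * f 1 Q₁ z := by
  unfold f G
  simp only [eval_sub, eval_add, eval_mul, eval_C, derivative_mul, derivative_add, derivative_C,
    derivative_one, zero_mul, eval_zero, zero_add, one_mul]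
  field_simp
  ring

theorem exists_radius {U V Q₁ : ℂ[X]} (hQ₁ : Q₁ ≠ 0) (hV : ∀ p, Q₁.eval p = 0 → V.eval p ≠ 0)
    (hB : ∀ p, Q₁.eval p = 0 → (f U V p).im ≠ 0) :
    ∃ r : ℝ, 0 < r ∧ ∀ p, Q₁.eval p = 0 → ∀ z ∈ Metric.closedBall p r,
      V.eval z ≠ 0 ∧ (f U V z).im ≠ 0 ∧ (Q₁.eval z = 0 → z = p) := by
  have hfin : {q : ℂ | Q₁.eval q = 0}.Finite := finite_setOfPred_isRoot hQ₁
  have h1 : ∀ p ∈ {q : ℂ | Q₁.eval q = 0}, ∀ᶠ r in 𝓝[>] (0 : ℝ), ∀ z ∈ Metric.closedBall p r,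
      V.eval z ≠ 0 ∧ (f U V z).im ≠ 0 ∧ (Q₁.eval z = 0 → z = p) := by
    intro p hp
    have h2 : ∀ᶠ z in 𝓝 p, V.eval z ≠ 0 ∧ (f U V z).im ≠ 0 ∧ (Q₁.eval z = 0 → z = p) := by
      have h3 : ∀ᶠ z in 𝓝 p, V.eval z ≠ 0 := V.continuous.continuousAt.eventually_ne (hV p hp)
      have h4 : ∀ᶠ z in 𝓝 p, (f U V z).im ≠ 0 :=
        ContinuousAt.eventually_ne (g := fun z => (f U V z).im)
          (Complex.continuous_im.continuousAt.comp (analyticAt_f U V (hV p hp)).continuousAt)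
          (hB p hp)
      have h5 : ∀ᶠ z in 𝓝 p, (Q₁.eval z = 0 → z = p) := by
        have h6 : ({q : ℂ | Q₁.eval q = 0} \ {p})ᶜ ∈ 𝓝 p := by
          apply IsOpen.mem_nhds
          · exact (hfin.subset Set.sdiff_subset).isClosed.isOpen_compl
          · exact fun h => h.2 rfl
        filter_upwards [h6] with z hz hz0
        by_contra hne
        exact hz ⟨hz0, hne⟩
      filter_upwards [h3, h4, h5] with z a b c
      exact ⟨a, b, c⟩
    obtain ⟨s, hs, hs2⟩ := Metric.nhds_basis_closedBall.eventually_iff.1 h2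
    filter_upwards [Ioc_mem_nhdsGT hs] with r hr z hz
    exact hs2 (Metric.closedBall_subset_closedBall hr.2 hz)
  have h2 : ∀ᶠ r in 𝓝[>] (0 : ℝ), ∀ p ∈ {q : ℂ | Q₁.eval q = 0}, ∀ z ∈ Metric.closedBall p r,
      V.eval z ≠ 0 ∧ (f U V z).im ≠ 0 ∧ (Q₁.eval z = 0 → z = p) :=
    (Filter.eventually_all_finite hfin).2 h1
  obtain ⟨r, hr, hr0⟩ := (h2.and self_mem_nhdsWithin).exists
  exact ⟨r, hr0, hr⟩

theorem lower {U V Q₁ : ℂ[X]} (hQ₁ : Q₁ ≠ 0) (hV : ∀ p, Q₁.eval p = 0 → V.eval p ≠ 0)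
    (hB : ∀ p, Q₁.eval p = 0 → (f U V p).im ≠ 0) :
    ∃ ε : ℂ, ε ≠ 0 ∧ {q : ℂ | Q₁.eval q = 0}.encard
      ≤ (bddComps (locus (U * Q₁ + C ε * V) (V * Q₁))).encard := by
  classical
  obtain ⟨r, hr0, hr⟩ := exists_radius hQ₁ hV hB
  have hfin : {q : ℂ | Q₁.eval q = 0}.Finite := finite_setOfPred_isRoot hQ₁
  set Γ : Set ℂ := ⋃ p ∈ {q : ℂ | Q₁.eval q = 0}, Metric.sphere p r with hΓ
  have hΓc : IsCompact Γ := hfin.isCompact_biUnion fun p _ => isCompact_sphere p r
  have hΓ1 : ∀ z ∈ Γ, V.eval z ≠ 0 ∧ (f U V z).im ≠ 0 ∧ Q₁.eval z ≠ 0 := by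
    intro z hz
    rw [hΓ, Set.mem_iUnion₂] at hz
    obtain ⟨p, hp, hzp⟩ := hz
    obtain ⟨h1, h2, h3⟩ := hr p hp z (Metric.sphere_subset_closedBall hzp)
    refine ⟨h1, h2, fun h => ?_⟩
    have h4 := h3 h
    rw [h4, Metric.mem_sphere, dist_self] at hzp
    exact hr0.ne hzp
  -- bounds on the circles
  obtain ⟨δ, hδ0, hδ⟩ : ∃ δ : ℝ, 0 < δ ∧ ∀ z ∈ Γ, δ ≤ |(f U V z).im| := by
    rcases Γ.eq_empty_or_nonempty with he | hne
    · exact ⟨1, one_pos, fun z hz => by rw [he] at hz; exact absurd hz (Set.notMem_empty _)⟩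
    · have hcont : ContinuousOn (fun z => |(f U V z).im|) Γ := by
        intro z hz
        exact ((Complex.continuous_im.continuousAt.comp
          (analyticAt_f U V (hΓ1 z hz).1).continuousAt).abs).continuousWithinAt
      obtain ⟨z, hz, hmin⟩ := hΓc.exists_isMinOn hne hcont
      exact ⟨|(f U V z).im|, abs_pos.2 (hΓ1 z hz).2.1, fun w hw => hmin hw⟩
  obtain ⟨M, hM⟩ : ∃ M : ℝ, ∀ z ∈ Γ, |(f 1 Q₁ z).im| ≤ M := by
    have hcont : ContinuousOn (fun z => (f 1 Q₁ z).im) Γ := by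
      intro z hz
      exact (Complex.continuous_im.continuousAt.comp
        (analyticAt_f 1 Q₁ (hΓ1 z hz).2.2).continuousAt).continuousWithinAt
    obtain ⟨M, hM⟩ := hΓc.exists_bound_of_continuousOn hcont
    exact ⟨M, hM⟩
  set M' : ℝ := |M| + 1 with hM'
  have hM'0 : 0 < M' := by positivity
  set ε : ℝ := δ / (2 * M') with hε
  have hε0 : 0 < ε := by positivity
  have hΓl : ∀ z ∈ Γ, z ∉ locus (U * Q₁ + C (ε : ℂ) * V) (V * Q₁) := by
    intro z hz
    obtain ⟨h1, h2, h3⟩ := hΓ1 z hz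
    rintro (h | h)
    · rw [eval_mul] at h
      exact (mul_ne_zero h1 h3) h
    · rw [f_add _ h1 h3, Complex.add_im, Complex.im_ofReal_mul] at h
      have h4 := hδ z hz
      have h5 := hM z hz
      have h6 : |ε * (f 1 Q₁ z).im| ≤ ε * |M| := by
        rw [abs_mul, abs_of_pos hε0]
        exact mul_le_mul_of_nonneg_left (h5.trans (le_abs_self M)) hε0.le
      have h7 : ε * |M| < δ := by
        have h8 : ε * M' = δ / 2 := by
          rw [hε]; field_simp
        have h9 : ε * |M| < ε * M' := by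
          apply mul_lt_mul_of_pos_left _ hε0
          rw [hM']; linarith
        linarith
      have h8 : (f U V z).im = -(ε * (f 1 Q₁ z).im) := by linarith
      rw [h8, abs_neg] at h4
      linarith
  have hroot : ∀ p, Q₁.eval p = 0 → p ∈ locus (U * Q₁ + C (ε : ℂ) * V) (V * Q₁) := by
    intro p hp
    left
    rw [eval_mul, hp, mul_zero]
  have hcomp : ∀ p, Q₁.eval p = 0 →
      connectedComponentIn (locus (U * Q₁ + C (ε : ℂ) * V) (V * Q₁)) p ⊆ Metric.ball p r := by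
    intro p hp
    apply IsPreconnected.subset_left_of_subset_union (v := (Metric.closedBall p r)ᶜ)
      Metric.isOpen_ball Metric.isClosed_closedBall.isOpen_compl
    · rw [Set.disjoint_compl_right_iff_subset]
      exact Metric.ball_subset_closedBall
    · intro z hz
      by_contra hcon
      rw [Set.mem_union, not_or, Set.mem_compl_iff, not_not, Metric.mem_ball, not_lt,
        Metric.mem_closedBall] at hcon
      apply hΓl z _ (connectedComponentIn_subset _ _ hz)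
      rw [hΓ, Set.mem_iUnion₂]
      exact ⟨p, hp, le_antisymm hcon.2 hcon.1⟩
    · exact ⟨p, mem_connectedComponentIn (hroot p hp), Metric.mem_ball_self hr0⟩
    · exact isPreconnected_connectedComponentIn
  refine ⟨(ε : ℂ), by exact_mod_cast hε0.ne', ?_⟩
  apply Set.encard_le_encard_of_injOn
    (f := fun p => connectedComponentIn (locus (U * Q₁ + C (ε : ℂ) * V) (V * Q₁)) p)
  · intro p hp
    exact ⟨Metric.isBounded_ball.subset (hcomp p hp), p, hroot p hp, rfl⟩
  · intro p hp q hq hpq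
    have h1 : q ∈ connectedComponentIn (locus (U * Q₁ + C (ε : ℂ) * V) (V * Q₁)) p := by
      have h2 := mem_connectedComponentIn (hroot q hq)
      simp only at hpq
      rw [hpq]
      exact h2
    exact ((hr p hp q (Metric.ball_subset_closedBall (hcomp p hp h1))).2.2 hq).symm

end Pool.Agent.R861.BC
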