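import Mathlib
import Pool.Agent.R495.MP.Defs

/-!
Pieces PAD and FG for MP_849d81_co.
-/

set_option autoImplicit false

namespace Pool.Agent.R861.MPPAD

open R495.MP

/-- transport of `MS` by a symmetry of the lattice -/
theorem MS_map (φ ψ : ℤ × ℤ → ℤ × ℤ) (h1 : ∀ v, φ (ψ v) = v) (h2 : ∀ v, ψ (φ v) = v)
    (h3 : ∀ u v, Adj u v → Adj (φ u) (φ v)) (h4 : ∀ u v, Adj u v → Adj (ψ u) (ψ v))
    (R bad R' bad' : Set (ℤ × ℤ)) (A : Finset (ℤ × ℤ)) (hR : ∀ v, v ∈ R' ↔ ψ v ∈ R)
    (hbad : ∀ v, v ∈ bad' → ψ v ∈ bad) (h : MS R bad A) : MS R' bad' (A.image φ) := by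
  have hφ : Function.Injective φ := fun a b hab => by rw [← h2 a, ← h2 b, hab]
  have hψ : Function.Injective ψ := fun a b hab => by rw [← h1 a, ← h1 b, hab]
  constructor
  · intro v hv
    obtain ⟨a, ha, rfl⟩ := Finset.mem_image.1 hv
    rw [hR, h2]
    exact h.sub a ha
  · intro X hX hA v hv
    have hY : Closed {v | φ v ∈ X} := by
      intro v u w huw hu hw hu' hw'
      exact hX (φ v) (φ u) (φ w) (fun hh => huw (hφ hh)) (h3 _ _ hu) (h3 _ _ hw) hu' hw'
    have := h.span {v | φ v ∈ X} hY (fun a ha => hA _ (Finset.mem_image_of_mem _ ha))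
      ((hR v).1 hv)
    rw [Set.mem_setOf_eq, h1] at this
    exact this
  · intro s hs
    obtain ⟨a, ha, rfl⟩ := Finset.mem_image.1 hs
    obtain ⟨X, hX, hXR, hXA, hXb⟩ := h.avoid a ha
    refine ⟨{v | ψ v ∈ X}, ?_, ?_, ?_, ?_⟩
    · intro v u w huw hu hw hu' hw'
      exact hX (ψ v) (ψ u) (ψ w) (fun hh => huw (hψ hh)) (h4 _ _ hu) (h4 _ _ hw) hu' hw'
    · intro v hv
      exact (hR v).2 (hXR hv)
    · intro v hv hne
      obtain ⟨b, hb, rfl⟩ := Finset.mem_image.1 hv
      rw [Set.mem_setOf_eq, h2]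
      exact hXA b hb (fun hh => hne (by rw [hh]))
    · intro v hv hvb
      exact hXb _ hv (hbad v hvb)

theorem t_FG : S_FG := by
  intro q p N hq hp ⟨T, hT, hc⟩
  refine ⟨T.image (fun v => (v.1, p + 1 - v.2)), ?_, ?_⟩
  · refine MS_map (fun v => (v.1, p + 1 - v.2)) (fun v => (v.1, p + 1 - v.2)) ?_ ?_ ?_ ?_
      (Rect 1 q 1 p) {v | v.2 = p ∧ v.1 < q} _ _ T ?_ ?_ hT
    · rintro ⟨x, y⟩; simp
    · rintro ⟨x, y⟩; simp
    · rintro ⟨x, y⟩ ⟨x', y'⟩ h
      simp only [Adj] at h ⊢
      omega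
    · rintro ⟨x, y⟩ ⟨x', y'⟩ h
      simp only [Adj] at h ⊢
      omega
    · rintro ⟨x, y⟩
      simp only [Rect, Set.mem_setOf_eq]
      omega
    · rintro ⟨x, y⟩ h
      rw [Set.mem_singleton_iff, Prod.mk.injEq] at h
      simp only [Set.mem_setOf_eq]
      omega
  · rw [Finset.card_image_of_injective, hc]
    rintro ⟨x, y⟩ ⟨x', y'⟩ h
    simp only [Prod.mk.injEq] at h
    rw [Prod.mk.injEq]
    omega

theorem closed_rect (x1 x2 y1 y2 : ℤ) : Closed (Rect x1 x2 y1 y2) := by
  rintro ⟨x, y⟩ ⟨a, b⟩ ⟨c, d⟩ hne h1 h2 h3 h4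
  have hne' : ¬ (a = c ∧ b = d) := fun h => hne (by rw [h.1, h.2])
  simp only [Adj] at h1 h2
  simp only [Rect, Set.mem_setOf_eq] at h3 h4 ⊢
  omega

theorem t_Pad : S_Pad := by
  intro n N hn ⟨T, hT, hc⟩
  obtain ⟨φ, hφ⟩ : ∃ φ : ℤ × ℤ → ℤ × ℤ, φ = fun v => (n + 1 - v.1, v.2 + 1) := ⟨_, rfl⟩
  have hM : MS (Rect 1 n 2 (n + 1)) {(n, 2)} (T.image φ) := by
    rw [hφ]
    refine MS_map (fun v => (n + 1 - v.1, v.2 + 1)) (fun v => (n + 1 - v.1, v.2 - 1)) ?_ ?_ ?_ ?_
      (Rect 1 n 1 n) {(1, 1)} _ _ T ?_ ?_ hT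
    · rintro ⟨x, y⟩; simp
    · rintro ⟨x, y⟩; simp
    · rintro ⟨x, y⟩ ⟨x', y'⟩ h
      simp only [Adj] at h ⊢
      omega
    · rintro ⟨x, y⟩ ⟨x', y'⟩ h
      simp only [Adj] at h ⊢
      omega
    · rintro ⟨x, y⟩
      simp only [Rect, Set.mem_setOf_eq]
      omega
    · rintro ⟨x, y⟩ h
      rw [Set.mem_singleton_iff, Prod.mk.injEq] at h ⊢
      omega
  have hcard : (T.image φ).card = N := by
    rw [Finset.card_image_of_injective, hc]
    rw [hφ]
    rintro ⟨x, y⟩ ⟨x', y'⟩ h
    simp only [Prod.mk.injEq] at h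
    rw [Prod.mk.injEq]
    omega
  generalize T.image φ = T1 at hM hcard
  have hnot : ((n + 1, 1) : ℤ × ℤ) ∉ T1 := by
    intro h
    have := hM.sub _ h
    simp only [Rect, Set.mem_setOf_eq] at this
    omega
  refine ⟨insert (n + 1, 1) T1, ?_, by rw [Finset.card_insert_of_notMem hnot, hcard]⟩
  constructor
  · intro v hv
    rcases Finset.mem_insert.1 hv with rfl | h
    · simp only [Rect, Set.mem_setOf_eq]
      omega
    · have := hM.sub _ h
      simp only [Rect, Set.mem_setOf_eq] at this ⊢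
      omega
  · intro X hX hA
    have h0 : ((n + 1, 1) : ℤ × ℤ) ∈ X := hA _ (Finset.mem_insert_self _ _)
    have h1 := hM.span X hX (fun v hv => hA v (Finset.mem_insert_of_mem hv))
    have hin : ∀ x y : ℤ, 1 ≤ x → x ≤ n → 2 ≤ y → y ≤ n + 1 → ((x, y) : ℤ × ℤ) ∈ X := by
      intro x y hx1 hx2 hy1 hy2
      apply h1
      simp only [Rect, Set.mem_setOf_eq]
      omega
    -- the bottom row
    have hrow : ∀ k : ℕ, (k : ℤ) ≤ n → ((n + 1 - k, 1) : ℤ × ℤ) ∈ X := by
      intro k
      induction k with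
      | zero => intro _; simpa using h0
      | succ k ih =>
        intro hk
        push_cast at hk ⊢
        refine hX _ (n + 1 - k, 1) (n + 1 - (k + 1), 2) ?_ ?_ ?_ (ih (by omega))
          (hin _ _ (by omega) (by omega) (by omega) (by omega))
        · intro h
          rw [Prod.mk.injEq] at h
          omega
        · unfold Adj; dsimp only; omega
        · unfold Adj; dsimp only; omega
    have hcol : ∀ k : ℕ, (k : ℤ) ≤ n → ((n + 1, 1 + k) : ℤ × ℤ) ∈ X := by
      intro k
      induction k with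
      | zero => intro _; simpa using h0
      | succ k ih =>
        intro hk
        push_cast at hk ⊢
        refine hX _ (n + 1, 1 + k) (n, 1 + (k + 1)) ?_ ?_ ?_ (ih (by omega))
          (hin _ _ (by omega) (by omega) (by omega) (by omega))
        · intro h
          rw [Prod.mk.injEq] at h
          omega
        · unfold Adj; dsimp only; omega
        · unfold Adj; dsimp only; omega
    rintro ⟨x, y⟩ hv
    simp only [Rect, Set.mem_setOf_eq] at hv
    by_cases hy : y = 1
    · subst hy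
      have := hrow (n + 1 - x).toNat (by omega)
      rw [Int.toNat_of_nonneg (by omega)] at this
      have e : n + 1 - (n + 1 - x) = x := by ring
      rwa [e] at this
    · by_cases hx : x = n + 1
      · subst hx
        have := hcol (y - 1).toNat (by omega)
        rw [Int.toNat_of_nonneg (by omega)] at this
        have e : 1 + (y - 1) = y := by ring
        rwa [e] at this
      · exact hin x y (by omega) (by omega) (by omega) (by omega)
  · intro s hs
    rcases Finset.mem_insert.1 hs with rfl | h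
    · refine ⟨Rect 1 n 2 (n + 1), closed_rect _ _ _ _, ?_, ?_, ?_⟩
      · intro v hv
        simp only [Rect, Set.mem_setOf_eq] at hv ⊢
        omega
      · intro v hv hne
        rcases Finset.mem_insert.1 hv with h | h
        · exact absurd h hne
        · exact hM.sub v h
      · rintro ⟨x, y⟩ hv hb
        rw [Set.mem_singleton_iff, Prod.mk.injEq] at hb
        simp only [Rect, Set.mem_setOf_eq] at hv
        omega
    · obtain ⟨X, hX, hXR, hXA, hXb⟩ := hM.avoid s h
      have hXR' : ∀ x y : ℤ, ((x, y) : ℤ × ℤ) ∈ X → 1 ≤ x ∧ x ≤ n ∧ 2 ≤ y ∧ y ≤ n + 1 ∧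
          ¬ (x = n ∧ y = 2) := by
        intro x y hxy
        have h1 := hXR hxy
        have h2 := hXb _ hxy
        rw [Set.mem_singleton_iff, Prod.mk.injEq] at h2
        simp only [Rect, Set.mem_setOf_eq] at h1
        exact ⟨h1.1, h1.2.1, h1.2.2.1, h1.2.2.2, h2⟩
      refine ⟨insert (n + 1, 1) X, ?_, ?_, ?_, ?_⟩
      · rintro ⟨x, y⟩ ⟨a, b⟩ ⟨c, d⟩ hne h1 h2 h3 h4
        rcases h3 with h3 | h3
        · rcases h4 with h4 | h4
          · exact absurd (h3.trans h4.symm) hne
          · exfalso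
            rw [Prod.mk.injEq] at h3
            have := hXR' c d h4
            simp only [Adj] at h1 h2
            omega
        · rcases h4 with h4 | h4
          · exfalso
            rw [Prod.mk.injEq] at h4
            have := hXR' a b h3
            simp only [Adj] at h1 h2
            omega
          · exact Or.inr (hX _ _ _ hne h1 h2 h3 h4)
      · rintro ⟨x, y⟩ (hv | hv)
        · rw [Prod.mk.injEq] at hv
          simp only [Rect, Set.mem_setOf_eq]
          omega
        · have := hXR' x y hv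
          simp only [Rect, Set.mem_setOf_eq]
          omega
      · intro v hv hne
        rcases Finset.mem_insert.1 hv with h5 | h5
        · exact Or.inl h5
        · exact Or.inr (hXA v h5 hne)
      · rintro ⟨x, y⟩ hv hb
        rw [Set.mem_singleton_iff, Prod.mk.injEq] at hb
        rcases hv with hv | hv
        · rw [Prod.mk.injEq] at hv
          omega
        · have := hXR' x y hv
          omega

end Pool.Agent.R861.MPPAD
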