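import Pool.Agent.R993.RR.Stm1

/-! RR St1a (helper861, subtask 3953, MP_7a141f_an). Lyapunov function
`V = 2 a^2 + b^2 + 3 c^2 + 6 a b - 6 a c` for `(a, b, c) = (R n, R (n+1), R (n+2))`: for the exact recurrence
`V (n+1) - V n = a^2 + b^2 + c^2`. -/

set_option autoImplicit false

namespace Pool.Agent.R861.RR

open Filter Topology Pool.Agent.R993.RR

theorem step_ineq (a b c d : ℝ) (h : |d - (c - a)| ≤ 1 / 65 * |c - a|) :
    1 / 2 * a ^ 2 ≤ (2 * b ^ 2 + c ^ 2 + 3 * d ^ 2 + 6 * b * c - 6 * b * d) -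
      (2 * a ^ 2 + b ^ 2 + 3 * c ^ 2 + 6 * a * b - 6 * a * c) := by
  set y : ℝ := c - a with hy
  set e : ℝ := d - y with he
  have hd : d = c - a + e := by rw [he, hy]; ring
  have hye : |y * e| ≤ 1 / 65 * y ^ 2 := by
    rw [abs_mul]
    calc |y| * |e| ≤ |y| * (1 / 65 * |y|) := mul_le_mul_of_nonneg_left h (abs_nonneg _)
      _ = 1 / 65 * |y| ^ 2 := by ring
      _ = 1 / 65 * y ^ 2 := by rw [sq_abs]
  have hbe : |b * e| ≤ 1 / 65 * (b ^ 2 + y ^ 2) := by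
    rw [abs_mul]
    have h1 : |b| * |e| ≤ |b| * (1 / 65 * |y|) := mul_le_mul_of_nonneg_left h (abs_nonneg _)
    have h2 : |b| * |y| ≤ b ^ 2 + y ^ 2 := by
      nlinarith [sq_nonneg (|b| - |y|), sq_abs b, sq_abs y, sq_nonneg b, sq_nonneg y]
    nlinarith
  have hy2 : y ^ 2 ≤ 2 * (a ^ 2 + c ^ 2) := by
    rw [hy]
    nlinarith [sq_nonneg (a + c)]
  have h1 := abs_le.1 hye
  have h2 := abs_le.1 hbe
  have key : (2 * b ^ 2 + c ^ 2 + 3 * d ^ 2 + 6 * b * c - 6 * b * d) -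
      (2 * a ^ 2 + b ^ 2 + 3 * c ^ 2 + 6 * a * b - 6 * a * c) =
      a ^ 2 + b ^ 2 + c ^ 2 + 6 * (y * e) + 3 * e ^ 2 - 6 * (b * e) := by
    rw [hd, hy]; ring
  rw [key]
  nlinarith [h1.1, h1.2, h2.1, h2.2, sq_nonneg e, sq_nonneg a, sq_nonneg b, sq_nonneg c]

theorem st1a : St1a := by
  rintro R ⟨M, hM⟩ hR
  have hM0 : 0 ≤ M := le_trans (abs_nonneg _) (hM 0)
  set V : ℕ → ℝ := fun n => 2 * R n ^ 2 + R (n + 1) ^ 2 + 3 * R (n + 2) ^ 2 +
    6 * R n * R (n + 1) - 6 * R n * R (n + 2) with hV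
  have hstep : ∀ n, 1 / 2 * R n ^ 2 ≤ V (n + 1) - V n := by
    intro n
    have := step_ineq (R n) (R (n + 1)) (R (n + 2)) (R (n + 3)) (hR n)
    simpa only [hV] using this
  have hsum : ∀ N, ∑ n ∈ Finset.range N, R n ^ 2 ≤ 2 * (V N - V 0) := by
    intro N
    induction N with
    | zero => simp
    | succ N ih =>
      rw [Finset.sum_range_succ]
      linarith [hstep N]
  have hsq : ∀ n, R n ^ 2 ≤ M ^ 2 := fun n => by
    rw [← sq_abs]
    exact pow_le_pow_left₀ (abs_nonneg _) (hM n) 2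
  have hVb : ∀ n, |V n| ≤ 18 * M ^ 2 := by
    intro n
    have h0 := hsq n
    have h1 := hsq (n + 1)
    have h2 := hsq (n + 2)
    simp only [hV]
    rw [abs_le]
    constructor
    · nlinarith [sq_nonneg (R n + R (n + 1)), sq_nonneg (R n - R (n + 2)),
        sq_nonneg (R n - R (n + 1)), sq_nonneg (R n + R (n + 2)), sq_nonneg (R n),
        sq_nonneg (R (n + 1)), sq_nonneg (R (n + 2))]
    · nlinarith [sq_nonneg (R n + R (n + 1)), sq_nonneg (R n - R (n + 2)),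
        sq_nonneg (R n - R (n + 1)), sq_nonneg (R n + R (n + 2)), sq_nonneg (R n),
        sq_nonneg (R (n + 1)), sq_nonneg (R (n + 2))]
  have hs : Summable (fun n => R n ^ 2) := by
    refine summable_of_sum_range_le (c := 72 * M ^ 2) (fun n => sq_nonneg _) (fun N => ?_)
    have h1 := hsum N
    have h2 := (abs_le.1 (hVb N)).2
    have h3 := (abs_le.1 (hVb 0)).1
    linarith
  have hlim := hs.tendsto_atTop_zero
  have h2 : Tendsto (fun n => Real.sqrt (R n ^ 2)) atTop (𝓝 (Real.sqrt 0)) :=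
    (Real.continuous_sqrt.tendsto 0).comp hlim
  rw [Real.sqrt_zero] at h2
  simp only [Real.sqrt_sq_eq_abs] at h2
  exact (tendsto_zero_iff_abs_tendsto_zero R).2 h2

end Pool.Agent.R861.RR
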