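import Pool.Agent.R497.TB.Defs
import Pool.Agent.R497.TD.PINC
import Pool.Agent.Y312.MC.Flw3

/-! TB-BCT1 (helper861, subtask 3542, MP_f720ae_an): smoothing error over grid boxes. -/

set_option autoImplicit false

namespace Pool.Agent.R861.TB

open MeasureTheory Filter Finset
open Pool.Agent.Y957.MC (IsFlow flowInv smo box bavg)
open Pool.Agent.R497.TB

universe u

/-- counting a residue class -/
theorem card_res (S R c : ℕ) : ((range (S * R)).filter fun n => n % R = c).card ≤ S := by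
  calc ((range (S * R)).filter fun n => n % R = c).card ≤ (range S).card := by
        refine Finset.card_le_card_of_injOn (fun n => n / R) ?_ ?_
        · intro n hn
          simp only [coe_filter, mem_range, Set.mem_setOf_eq] at hn
          simp only [coe_range, Set.mem_Iio]
          exact Nat.div_lt_of_lt_mul (by rw [mul_comm]; exact hn.1)
        · intro a ha b hb hab
          simp only [coe_filter, mem_range, Set.mem_setOf_eq] at ha hb
          have hab' : a / R = b / R := hab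
          rw [← Nat.div_add_mod a R, ← Nat.div_add_mod b R, ha.2, hb.2, hab']
    _ = S := card_range S

/-- the number of close pairs above the cutoff -/
theorem near_card (hB : S_BBAD) {S R c : ℕ} {Q : ℕ → ℝ} {A Y s : ℝ} (hR : 0 < R) (hA : 0 < A)
    (hY : 0 ≤ Y) (hs : s = 1 ∨ s = -1)
    (hinc : ∀ u v, u < S → c < v → v + 1 < R → A ≤ s * Q (u * R + (v + 1)) - s * Q (u * R + v)) :
    (((range (S * R) ×ˢ range (S * R)).filter fun p =>
      c ≤ p.1 % R ∧ c ≤ p.2 % R ∧ |Q p.1 - Q p.2| < Y).card : ℝ)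
      ≤ ((S * R : ℕ) : ℝ) * (S * (2 * Y / A + 3)) := by
  have h0 := hB S R c (fun n => s * Q n) A Y hR hA hY hinc
  have hsub : ((range (S * R) ×ˢ range (S * R)).filter fun p =>
      c ≤ p.1 % R ∧ c ≤ p.2 % R ∧ |Q p.1 - Q p.2| < Y) ⊆
      ((((range (S * R)).filter fun n => n % R = c) ×ˢ range (S * R)) ∪
        (range (S * R) ×ˢ ((range (S * R)).filter fun n => n % R = c))) ∪
      ((range (S * R) ×ˢ range (S * R)).filter fun p =>
        c < p.1 % R ∧ c < p.2 % R ∧ |s * Q p.1 - s * Q p.2| < Y) := by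
    intro p hp
    simp only [mem_filter, mem_product, mem_union] at hp ⊢
    obtain ⟨⟨h1, h2⟩, h3, h4, h5⟩ := hp
    rcases eq_or_lt_of_le h3 with h3 | h3
    · exact Or.inl (Or.inl ⟨⟨h1, h3.symm⟩, h2⟩)
    rcases eq_or_lt_of_le h4 with h4 | h4
    · exact Or.inl (Or.inr ⟨h1, h2, h4.symm⟩)
    refine Or.inr ⟨⟨h1, h2⟩, h3, h4, ?_⟩
    rw [← mul_sub, abs_mul]
    rcases hs with hs | hs
    · rw [hs, abs_one, one_mul]; exact h5
    · rw [hs, abs_neg, abs_one, one_mul]; exact h5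
  have h1 := Finset.card_le_card hsub
  have h2 : (((((range (S * R)).filter fun n => n % R = c) ×ˢ range (S * R)) ∪
        (range (S * R) ×ˢ ((range (S * R)).filter fun n => n % R = c))) ∪
      ((range (S * R) ×ˢ range (S * R)).filter fun p =>
        c < p.1 % R ∧ c < p.2 % R ∧ |s * Q p.1 - s * Q p.2| < Y)).card ≤
      S * (S * R) + (S * R) * S + ((range (S * R) ×ˢ range (S * R)).filter fun p =>
        c < p.1 % R ∧ c < p.2 % R ∧ |s * Q p.1 - s * Q p.2| < Y).card := by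
    refine le_trans (card_union_le _ _) ?_
    refine Nat.add_le_add_right ?_ _
    refine le_trans (card_union_le _ _) ?_
    rw [card_product, card_product, card_range]
    exact Nat.add_le_add (Nat.mul_le_mul_right _ (card_res S R c))
      (Nat.mul_le_mul_left _ (card_res S R c))
  have h3 : (((range (S * R) ×ˢ range (S * R)).filter fun p =>
      c ≤ p.1 % R ∧ c ≤ p.2 % R ∧ |Q p.1 - Q p.2| < Y).card : ℝ) ≤
      (S : ℝ) * ((S * R : ℕ) : ℝ) + ((S * R : ℕ) : ℝ) * S +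
        (((range (S * R) ×ˢ range (S * R)).filter fun p =>
        c < p.1 % R ∧ c < p.2 % R ∧ |s * Q p.1 - s * Q p.2| < Y).card : ℝ) := by
    exact_mod_cast h1.trans h2
  refine h3.trans ?_
  have h4 : ((S * R : ℕ) : ℝ) * (S * (2 * Y / A + 3)) =
      (S : ℝ) * ((S * R : ℕ) : ℝ) + ((S * R : ℕ) : ℝ) * S +
        ((S * R : ℕ) : ℝ) * (S * (2 * Y / A + 1)) := by ring
  rw [h4]
  exact add_le_add_right h0 _

theorem sep_update {k : ℕ} (p : Fin k → Polynomial ℝ) (m : Fin k → ℕ) (i : Fin k) (z : ℕ) :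
    sep p (Function.update m i z) =
      (p i).eval (z : ℝ) + ∑ l ∈ univ.erase i, (p l).eval (m l : ℝ) := by
  unfold sep
  rw [← Finset.add_sum_erase univ _ (mem_univ i)]
  congr 1
  · simp
  · refine Finset.sum_congr rfl fun l hl => ?_
    rw [Function.update_of_ne (Finset.ne_of_mem_erase hl)]

/-- the sign of the leading coefficient -/
theorem exists_sign (P : Polynomial ℝ) (hP : 0 < P.natDegree) : ∃ s : ℝ, (s = 1 ∨ s = -1) ∧
    (Polynomial.C s * P).natDegree = P.natDegree ∧ 0 < (Polynomial.C s * P).leadingCoeff := by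
  have h0 : P ≠ 0 := by
    rintro rfl
    simp at hP
  have hl : P.leadingCoeff ≠ 0 := Polynomial.leadingCoeff_ne_zero.2 h0
  rcases lt_or_gt_of_ne hl with h | h
  · refine ⟨-1, Or.inr rfl, Polynomial.natDegree_C_mul (by norm_num), ?_⟩
    rw [Polynomial.leadingCoeff_mul, Polynomial.leadingCoeff_C]
    linarith
  · refine ⟨1, Or.inl rfl, Polynomial.natDegree_C_mul (by norm_num), ?_⟩
    rw [Polynomial.leadingCoeff_mul, Polynomial.leadingCoeff_C]
    linarith

/-- arithmetic of the exponents -/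
theorem arith_bound {k d : ℕ} (hd : 0 < d) {κ c₀ : ℝ} (hκ : 1 ≤ κ) (hc : 0 < c₀) {Rr N Sr : ℝ}
    (hR : Rr = κ ^ (8 * (k + 1))) (hS : 0 < Sr) (hN : N = Sr * Rr) {nc : ℝ}
    (hnc : nc ≤ N * (Sr * (2 * κ ^ ((8 * (k + 1) * d - 2 * (k + 1)) + (k + 1)) /
      (c₀ * Rr ^ (d - 1)) + 3))) :
    nc / N ^ 2 + 4 * κ ^ (8 * (k + 1) * d - 2 * (k + 1)) /
      κ ^ ((8 * (k + 1) * d - 2 * (k + 1)) + (k + 1)) ≤ (2 / c₀ + 7) / κ ^ (k + 1) := by
  have hκ0 : 0 < κ := by linarith
  obtain ⟨d', rfl⟩ : ∃ d', d = d' + 1 := ⟨d - 1, by omega⟩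
  have hm : 8 * (k + 1) * (d' + 1) - 2 * (k + 1) = 8 * (k + 1) * d' + 6 * (k + 1) := by
    have : 8 * (k + 1) * (d' + 1) = 8 * (k + 1) * d' + 8 * (k + 1) := by ring
    rw [this]; omega
  rw [hm] at hnc ⊢
  rw [Nat.add_sub_cancel] at hnc
  have hRpos : 0 < Rr := by rw [hR]; positivity
  have hNpos : 0 < N := by rw [hN]; positivity
  have h1 : 4 * κ ^ (8 * (k + 1) * d' + 6 * (k + 1)) /
      κ ^ (8 * (k + 1) * d' + 6 * (k + 1) + (k + 1)) = 4 / κ ^ (k + 1) := by
    rw [pow_add κ (8 * (k + 1) * d' + 6 * (k + 1)) (k + 1)]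
    field_simp
  have h2 : nc / N ^ 2 ≤ (2 * κ ^ (8 * (k + 1) * d' + 6 * (k + 1) + (k + 1)) /
      (c₀ * Rr ^ d') + 3) / Rr := by
    rw [div_le_div_iff₀ (by positivity) hRpos]
    calc nc * Rr ≤ N * (Sr * (2 * κ ^ (8 * (k + 1) * d' + 6 * (k + 1) + (k + 1)) /
          (c₀ * Rr ^ d') + 3)) * Rr := mul_le_mul_of_nonneg_right hnc hRpos.le
      _ = (2 * κ ^ (8 * (k + 1) * d' + 6 * (k + 1) + (k + 1)) /
          (c₀ * Rr ^ d') + 3) * N ^ 2 := by rw [hN]; ring
  have h3 : 2 * κ ^ (8 * (k + 1) * d' + 6 * (k + 1) + (k + 1)) / (c₀ * Rr ^ d') / Rr =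
      (2 / c₀) / κ ^ (k + 1) := by
    have h4 : Rr ^ d' * Rr = κ ^ (8 * (k + 1) * d' + 6 * (k + 1) + (k + 1)) * κ ^ (k + 1) := by
      rw [hR, ← pow_mul, ← pow_add, ← pow_add]
      congr 1
      ring
    rw [div_div, mul_assoc c₀, h4]
    field_simp
  have h5 : 3 / Rr ≤ 3 / κ ^ (k + 1) := by
    refine div_le_div_of_nonneg_left (by norm_num) (by positivity) ?_
    rw [hR]
    exact pow_le_pow_right₀ hκ (by omega)
  rw [h1]
  calc nc / N ^ 2 + 4 / κ ^ (k + 1)
      ≤ (2 * κ ^ (8 * (k + 1) * d' + 6 * (k + 1) + (k + 1)) /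
      (c₀ * Rr ^ d') + 3) / Rr + 4 / κ ^ (k + 1) := by linarith
    _ = (2 / c₀) / κ ^ (k + 1) + 3 / Rr + 4 / κ ^ (k + 1) := by rw [add_div, h3]
    _ ≤ (2 / c₀) / κ ^ (k + 1) + 3 / κ ^ (k + 1) + 4 / κ ^ (k + 1) := by linarith
    _ = (2 / c₀ + 7) / κ ^ (k + 1) := by ring

/-- the mean square bound for one grid box -/
theorem msq (hE : S_ENUM) (hB : S_BBAD) (hS : S_BSM.{u}) {X : Type u} [MeasurableSpace X]
    {μ : Measure X} [IsProbabilityMeasure μ] {τ : ℝ → X → X} {e : X → ℝ} {k d : ℕ}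
    {p : Fin k → Polynomial ℝ} (hτ : IsFlow μ τ) (he : Measurable e)
    (hb : ∀ x, 0 ≤ e x ∧ e x ≤ 1) (hp : SD p d) (i : Fin k) (j : ℕ) :
    ∃ (C : ℝ) (T₀ : ℕ), ∀ t : Fin k → ℕ, T₀ ≤ t i →
    ∫ a in (1 : ℝ)..2, ∫ x, (ravg (gbx (8 * (k + 1)) t)
      (fun m => if cut j (gbx (8 * (k + 1)) t i) < m i then
        e (τ (a * sep p m) x) -
          smo τ e (((t i : ℝ) + 1) ^ (8 * (k + 1) * d - 2 * (k + 1))) (τ (a * sep p m) x)
          else 0)) ^ 2 ∂μ ≤ C / ((t i : ℝ) + 1) ^ (k + 1) := by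
  have hd := hp.1
  have hdi : (p i).natDegree = d := hp.2 i
  obtain ⟨s, hs, hsd, hsl⟩ := exists_sign (p i) (by rw [hdi]; exact hd)
  rw [hdi] at hsd
  obtain ⟨c₀, C₁, hc₀, hC₁, hev⟩ := Pool.Agent.R497.TD.PINC784.t_PINC (Polynomial.C s * p i)
    (by rw [hsd]; exact hd) hsl j
  obtain ⟨N₀, hN₀⟩ := eventually_atTop.1 hev
  refine ⟨2 / c₀ + 7, N₀, ?_⟩
  intro t ht
  set M : Fin k → ℕ := gbx (8 * (k + 1)) t with hM
  have hMpos : ∀ l, 0 < M l := fun l => by
    simp only [hM, gbx]; positivity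
  obtain ⟨S, en, hS0, hSM, hen1, hen2, hen3⟩ := hE k i M hMpos
  set R : ℕ := M i with hRdef
  have hRκ : (R : ℝ) = ((t i : ℝ) + 1) ^ (8 * (k + 1)) := by
    simp only [hRdef, hM, gbx]; push_cast; rfl
  have hR0 : 0 < R := hMpos i
  have hκ1 : (1 : ℝ) ≤ (t i : ℝ) + 1 := by
    have : (0 : ℝ) ≤ (t i : ℝ) := Nat.cast_nonneg _
    linarith
  have hκ0 : (0 : ℝ) < (t i : ℝ) + 1 := by linarith
  have hRN : N₀ ≤ R := by
    have h1 : t i + 1 ≤ (t i + 1) ^ (8 * (k + 1)) := Nat.le_self_pow (by omega) _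
    have h2 : R = (t i + 1) ^ (8 * (k + 1)) := rfl
    omega
  set c : ℕ := cut j R with hc
  set Q : ℕ → ℝ := fun n => sep p (en n) with hQ
  set m₁ : ℕ := 8 * (k + 1) * d - 2 * (k + 1) with hm₁
  set κ : ℝ := (t i : ℝ) + 1 with hκ
  have hA : 0 < c₀ * (R : ℝ) ^ (d - 1) := by
    have : (0 : ℝ) < R := by exact_mod_cast hR0
    positivity
  have hY : 0 < κ ^ (m₁ + (k + 1)) := by positivity
  have hinc : ∀ u v, u < S → c < v → v + 1 < R →
      c₀ * (R : ℝ) ^ (d - 1) ≤ s * Q (u * R + (v + 1)) - s * Q (u * R + v) := by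
    intro u v hu hv hv1
    have h1 := (hN₀ R hRN v hv.le (by omega)).1
    rw [hsd] at h1
    refine h1.trans (le_of_eq ?_)
    simp only [hQ]
    rw [hen1 u (v + 1) hu hv1, hen1 u v hu (by omega), sep_update, sep_update]
    simp only [Polynomial.eval_mul, Polynomial.eval_C]
    have e1 : (((v + 1 + 1 : ℕ) : ℝ)) = (v : ℝ) + 2 := by push_cast; ring
    have e2 : (((v + 1 : ℕ) : ℝ)) = (v : ℝ) + 1 := by push_cast; ring
    rw [e1, e2]
    ring
  have hcard := near_card hB (S := S) (R := R) (c := c) (Q := Q) (Y := κ ^ (m₁ + (k + 1)))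
    hR0 hA hY.le hs hinc
  set Near : Finset (ℕ × ℕ) := (range (S * R) ×ˢ range (S * R)).filter fun p =>
      c ≤ p.1 % R ∧ c ≤ p.2 % R ∧ |Q p.1 - Q p.2| < κ ^ (m₁ + (k + 1)) with hNear
  have hmod : ∀ n, n < S * R → en n i = n % R + 1 := by
    intro n hn
    have h1 : n / R < S := Nat.div_lt_of_lt_mul (by rw [mul_comm]; exact hn)
    have h2 : n % R < R := Nat.mod_lt _ hR0
    have h3 := hen1 (n / R) (n % R) h1 h2
    rw [Nat.div_add_mod'] at h3
    rw [h3, Function.update_self]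
  set G : Finset ℕ := (range (S * R)).filter fun n => c < en n i with hG
  have hN : 0 < S * R := Nat.mul_pos hS0 hR0
  have hbsm := hS X μ τ e Q (S * R) G Near (κ ^ m₁) (κ ^ (m₁ + (k + 1))) hτ he hb hN
    (by positivity) hY (by
      intro n n' hn hn' hnG hnG' hnot
      by_contra hlt
      push Not at hlt
      apply hnot
      rw [hNear, mem_filter, mem_product, mem_range, mem_range]
      rw [hG, mem_filter, mem_range] at hnG hnG'
      have h1 := hmod n hn
      have h2 := hmod n' hn'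
      have h3 : c ≤ n % R := by clear_value c; have := hnG.2; omega
      have h4 : c ≤ n' % R := by clear_value c; have := hnG'.2; omega
      exact ⟨⟨hn, hn'⟩, h3, h4, hlt⟩)
  have heq : ∀ (a : ℝ) (x : X), ravg M (fun m => if c < m i then
        e (τ (a * sep p m) x) - smo τ e (κ ^ m₁) (τ (a * sep p m) x) else 0) =
      (1 / ((S * R : ℕ) : ℝ)) * ∑ n ∈ range (S * R),
      if n ∈ G then e (τ (a * Q n) x) - smo τ e (κ ^ m₁) (τ (a * Q n) x) else 0 := by
    intro a x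
    unfold ravg
    rw [← hen3, ← hSM]
    congr 1
    refine Finset.sum_congr rfl fun n hn => ?_
    have hnG : n ∈ G ↔ c < en n i := by
      rw [hG, mem_filter]
      exact ⟨fun h => h.2, fun h => ⟨hn, h⟩⟩
    simp only [hnG, hQ]
  simp only [heq]
  refine hbsm.trans ?_
  exact arith_bound hd hκ1 hc₀ hRκ (Sr := (S : ℝ)) (by exact_mod_cast hS0)
    (by push_cast; ring) hcard

theorem ravg_abs_le {k : ℕ} (M : Fin k → ℕ) (F : (Fin k → ℕ) → ℝ) (hF : ∀ m, |F m| ≤ 1) :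
    |ravg M F| ≤ 1 := by
  unfold ravg
  rw [abs_mul]
  have h1 : |∑ m ∈ box M, F m| ≤ ((∏ i, M i : ℕ) : ℝ) := by
    calc |∑ m ∈ box M, F m| ≤ ∑ m ∈ box M, |F m| := abs_sum_le_sum_abs _ _
      _ ≤ ∑ m ∈ box M, (1 : ℝ) := Finset.sum_le_sum fun m _ => hF m
      _ = ((∏ i, M i : ℕ) : ℝ) := by
          rw [Finset.sum_const, nsmul_eq_mul, mul_one]
          congr 1
          unfold Pool.Agent.Y957.MC.box
          rw [Fintype.card_piFinset]
          refine Finset.prod_congr rfl fun l _ => ?_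
          rw [Nat.card_Icc, Nat.add_sub_cancel]
  rw [abs_of_nonneg (by positivity : (0 : ℝ) ≤ 1 / ((∏ i, M i : ℕ) : ℝ))]
  rcases Nat.eq_zero_or_pos (∏ i, M i) with h0 | h0
  · rw [h0]; simp
  · have : (0 : ℝ) < ((∏ i, M i : ℕ) : ℝ) := by exact_mod_cast h0
    rw [one_div, inv_mul_le_iff₀ this, mul_one]
    exact h1

theorem smo_mem {X : Type u} [MeasurableSpace X] {τ : ℝ → X → X} {e : X → ℝ}
    (hb : ∀ x, 0 ≤ e x ∧ e x ≤ 1) {T : ℝ} (hT : 0 < T) (x : X) :
    0 ≤ smo τ e T x ∧ smo τ e T x ≤ 1 := by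
  constructor
  · unfold smo
    refine mul_nonneg (by positivity) ?_
    exact intervalIntegral.integral_nonneg hT.le fun r _ => (hb _).1
  · have := Pool.Agent.Y312.MC.smo_bdd (τ := τ) (h := e) (C := 1)
      (fun x => by rw [abs_of_nonneg (hb x).1]; exact (hb x).2) hT x
    exact (abs_le.1 this).2

theorem t_BCT1 (hE : S_ENUM) (hB : S_BBAD) (hC : S_BGC.{u}) (hS : S_BSM.{u}) : S_BCT1.{u} := by
  intro X mX μ _ τ e k d p hτ he hb hk hp
  have key : ∀ (i : Fin k) (j : ℕ), ∀ᵐ a ∂(volume.restrict (Set.Icc (1 : ℝ) 2)), ∀ᵐ x ∂μ,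
      ∀ (η : ℝ), 0 < η → ∃ T₁ : ℕ, ∀ t : Fin k → ℕ, T₁ ≤ t i → (∀ l, t l ≤ t i) →
      |ravg (gbx (8 * (k + 1)) t) (fun m => if cut j (gbx (8 * (k + 1)) t i) < m i then
        e (τ (a * sep p m) x) -
          smo τ e (((t i : ℝ) + 1) ^ (8 * (k + 1) * d - 2 * (k + 1))) (τ (a * sep p m) x)
          else 0)| ≤ η := by
    intro i j
    obtain ⟨C, T₀, hCT⟩ := msq hE hB hS hτ he hb hp i j
    set D : (Fin k → ℕ) → ℝ × X → ℝ := fun t ω => ravg (gbx (8 * (k + 1)) t)
      (fun m => if cut j (gbx (8 * (k + 1)) t i) < m i then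
        e (τ (ω.1 * sep p m) ω.2) -
          smo τ e (((t i : ℝ) + 1) ^ (8 * (k + 1) * d - 2 * (k + 1))) (τ (ω.1 * sep p m) ω.2)
          else 0) with hD
    have hDm : ∀ t, Measurable (D t) := by
      intro t
      have hTpos : (0 : ℝ) < ((t i : ℝ) + 1) ^ (8 * (k + 1) * d - 2 * (k + 1)) := by positivity
      simp only [hD]
      unfold ravg
      refine measurable_const.mul (Finset.measurable_sum _ fun m _ => ?_)
      by_cases h : cut j (gbx (8 * (k + 1)) t i) < m i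
      · simp only [if_pos h]
        have hτm : Measurable fun ω : ℝ × X => τ (ω.1 * sep p m) ω.2 :=
          hτ.meas.comp ((measurable_fst.mul_const _).prodMk measurable_snd)
        exact (he.comp hτm).sub ((Pool.Agent.Y312.MC.smo_meas hτ he hTpos).comp hτm)
      · simp only [if_neg h]
        exact measurable_const
    have hD1 : ∀ t ω, |D t ω| ≤ 1 := by
      intro t ω
      have hTpos : (0 : ℝ) < ((t i : ℝ) + 1) ^ (8 * (k + 1) * d - 2 * (k + 1)) := by positivity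
      refine ravg_abs_le _ _ fun m => ?_
      by_cases h : cut j (gbx (8 * (k + 1)) t i) < m i
      · simp only [if_pos h]
        have h1 := hb (τ (ω.1 * sep p m) ω.2)
        have h2 := smo_mem (τ := τ) hb hTpos (τ (ω.1 * sep p m) ω.2)
        rw [abs_le]
        constructor <;> linarith [h1.1, h1.2, h2.1, h2.2]
      · simp only [if_neg h]
        simp
    have h1 := hC (ℝ × X) ((volume.restrict (Set.Icc (1 : ℝ) 2)).prod μ) k i D C T₀ hDm hD1 (by
      intro t ht _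
      have hint : Integrable (fun ω => (D t ω) ^ 2)
          ((volume.restrict (Set.Icc (1 : ℝ) 2)).prod μ) := by
        refine Integrable.of_bound ((hDm t).pow_const 2).aestronglyMeasurable 1
          (ae_of_all _ fun ω => ?_)
        rw [Real.norm_eq_abs, abs_pow]
        exact pow_le_one₀ (abs_nonneg _) (hD1 t ω)
      rw [integral_prod _ hint, integral_Icc_eq_integral_Ioc,
        ← intervalIntegral.integral_of_le (by norm_num : (1 : ℝ) ≤ 2)]
      exact hCT t ht)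
    have h2 := Measure.ae_ae_of_ae_prod h1
    filter_upwards [h2] with a ha
    filter_upwards [ha] with x hx
    exact hx
  have h1 : ∀ᵐ a ∂(volume.restrict (Set.Icc (1 : ℝ) 2)), ∀ ij : Fin k × ℕ, ∀ᵐ x ∂μ,
      ∀ (η : ℝ), 0 < η → ∃ T₁ : ℕ, ∀ t : Fin k → ℕ, T₁ ≤ t ij.1 → (∀ l, t l ≤ t ij.1) →
      |ravg (gbx (8 * (k + 1)) t) (fun m => if cut ij.2 (gbx (8 * (k + 1)) t ij.1) < m ij.1 then
        e (τ (a * sep p m) x) -
          smo τ e (((t ij.1 : ℝ) + 1) ^ (8 * (k + 1) * d - 2 * (k + 1))) (τ (a * sep p m) x)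
          else 0)| ≤ η := ae_all_iff.2 fun ij => key ij.1 ij.2
  filter_upwards [h1] with a ha
  filter_upwards [ae_all_iff.2 ha] with x hx i j η hη
  exact hx (i, j) η hη

end Pool.Agent.R861.TB
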