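import Pool.Agent.R497.TM.Defs

/-! TM-MFIN (helper861, subtask 4371, MP_4d8f14_an): assembly, from flows to maps. -/

set_option autoImplicit false

namespace Pool.Agent.R861.TM

open MeasureTheory Filter Finset
open Pool.Agent.Y957.MC (IsFlow flowInv smo)
open Pool.Agent.R497.Er (zp sus zp_mp)
open Pool.Agent.R497.TM

universe u

theorem condExp_bdd {X : Type u} {m : MeasurableSpace X} [mX : MeasurableSpace X] {μ : Measure X}
    [IsProbabilityMeasure μ] {g : X → ℂ} {C : ℝ} (hC0 : 0 ≤ C) (hC : ∀ᵐ x ∂μ, ‖g x‖ ≤ C) :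
    ∀ᵐ x ∂μ, ‖(μ[g | m]) x‖ ≤ C := by
  have h1 := norm_condExp_le (μ := μ) (m := m) g
  have h2 := ae_bdd_condExp_of_ae_bdd (m := m) (μ := μ) (R := ⟨C, hC0⟩) (f := fun x => ‖g x‖)
    (by filter_upwards [hC] with x hx; rw [abs_norm]; exact hx)
  filter_upwards [h1, h2] with x hx1 hx2
  exact hx1.trans ((le_abs_self _).trans hx2)

theorem t_MFIN (hS : S_SFL.{u}) (hC : S_SCE.{u}) (hT : S_TR.{u})
    (hF : Pool.Agent.R497.TD.S_FIN.{u}) : S_MFIN.{u} := by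
  intro X mX μ _ r T f P W hTmp hf hfb hP hinj hW hWb
  haveI : IsProbabilityMeasure (nu μ) := by unfold nu; infer_instance
  choose C hCf using hfb
  obtain ⟨CW, hCW⟩ := hWb
  set E : Fin r → X → ℂ := fun j => μ[f j | MeasurableSpace.invariants (T j)] with hE
  set Φ : ℕ → X → (Fin r → ℤ) → ℂ := fun n x k =>
    W n x * (∏ j, f j (zp (T j) (k j) x) - ∏ j, E j x) with hΦdef
  have hΦ : ∀ᵐ x ∂μ, ∀ n k, ‖Φ n x k‖ ≤ max CW 0 * (∏ j, max (C j) 0 + ∏ j, max (C j) 0) := by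
    have h1 : ∀ᵐ x ∂μ, ∀ n, ‖W n x‖ ≤ CW := ae_all_iff.2 hCW
    have h2 : ∀ᵐ x ∂μ, ∀ j, ∀ k : ℤ, ‖f j (zp (T j) k x)‖ ≤ C j :=
      ae_all_iff.2 fun j => ae_all_iff.2 fun k =>
        (zp_mp (T j) (hTmp j) k).quasiMeasurePreserving.ae (hCf j)
    have h3 : ∀ᵐ x ∂μ, ∀ j, ‖E j x‖ ≤ max (C j) 0 := ae_all_iff.2 fun j =>
      condExp_bdd (le_max_right _ _)
        (by filter_upwards [hCf j] with x hx; exact hx.trans (le_max_left _ _))
    filter_upwards [h1, h2, h3] with x h1 h2 h3 n k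
    simp only [hΦdef]
    rw [norm_mul]
    refine mul_le_mul ((h1 n).trans (le_max_left _ _)) ?_ (norm_nonneg _) (le_max_right _ _)
    refine (norm_sub_le _ _).trans (add_le_add ?_ ?_)
    · rw [norm_prod]
      exact Finset.prod_le_prod (fun j _ => norm_nonneg _)
        fun j _ => (h2 j (k j)).trans (le_max_left _ _)
    · rw [norm_prod]
      exact Finset.prod_le_prod (fun j _ => norm_nonneg _) fun j _ => h3 j
  have hsnd : ∀ {q : X → Prop}, (∀ᵐ x ∂μ, q x) → ∀ᵐ p ∂(nu μ), q p.2 := by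
    intro q hq
    exact (Measure.quasiMeasurePreserving_snd (μ := volume.restrict (Set.Ico (0 : ℝ) 1))
      (ν := μ)).ae hq
  have hfin := hF (ℝ × X) (nu μ) r (fun j => sus (T j)) (fun j p => f j p.2) P
    (fun n p => W n p.2) (fun j => (hS X μ (T j) (hTmp j)).2) (fun j => (hf j).comp_snd)
    (fun j => ⟨C j, hsnd (hCf j)⟩) hP hinj (fun n => (hW n).comp_snd)
    ⟨CW, fun n => hsnd (hCW n)⟩
  have hce : ∀ᵐ p ∂(nu μ), ∀ j,
      ((nu μ)[fun p : ℝ × X => f j p.2 | flowInv (sus (T j))]) p = E j p.2 :=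
    ae_all_iff.2 fun j => hC X μ (T j) (f j) (hTmp j) (hf j) ⟨C j, hCf j⟩
  refine hT X μ r P Φ _ hP hΦ ?_
  filter_upwards [hfin] with a ha
  filter_upwards [ha, hce] with p hp hcp
  refine hp.congr fun N => ?_
  have h1 : ∏ j, ((nu μ)[fun p : ℝ × X => f j p.2 | flowInv (sus (T j))]) p =
      ∏ j, E j p.2 := Finset.prod_congr rfl fun j _ => hcp j
  rw [h1]
  have h2 : ∑ n ∈ Icc 1 N, Φ n p.2 (fun j => ⌊Int.fract p.1 + a * (P j).eval (n : ℝ)⌋) =
      ∑ n ∈ Icc 1 N, W n p.2 * ∏ j, f j (sus (T j) (a * (P j).eval (n : ℝ)) p).2 -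
        (∑ n ∈ Icc 1 N, W n p.2) * ∏ j, E j p.2 := by
    rw [Finset.sum_mul, ← Finset.sum_sub_distrib]
    refine Finset.sum_congr rfl fun n _ => ?_
    simp only [hΦdef]
    rw [mul_sub]
    rfl
  rw [h2]
  ring

end Pool.Agent.R861.TM
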